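import Pool.Agent.H41.CUBE.TStmts

/-!
# Cube project, block TAME, module EW: `e` is not in the span of the levels `≤ n`
-/

set_option autoImplicit false

open Finset MvPolynomial Pool.CM

namespace Pool.CUBE

section
variable {n : ℕ} {A : Type} [CommRing A] {N : Type}

/-- a linear map which kills all the relation operators kills the relations -/
theorem co_rel_H12 (P : Poly n A) (co : Poly n A →ₗ[A] (N → A))
    (h : ∀ i g, co (Dop P i g) = 0) (g : Poly n A) (hg : g ∈ Rel P) : co g = 0 := by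
  rw [Rel] at hg
  refine Submodule.iSup_induction _ (motive := fun x => co x = 0) hg ?_ ?_ ?_
  · rintro i _ ⟨g, rfl⟩
    exact h i g
  · exact map_zero _
  · intro x y hx hy
    rw [map_add, hx, hy, add_zero]

/-- the coefficients of `cD δ g` -/
theorem coeff_cD_H12 {σ : Type} (δ : Derivation ℤ A A) (g : MvPolynomial σ A) (a : σ →₀ ℕ) :
    coeff a (cD δ g) = δ (coeff a g) := by
  classical
  induction g using MvPolynomial.induction_on' with
  | add g1 g2 h1 h2 => rw [map_add, coeff_add, h1, h2, coeff_add, map_add]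
  | monomial b s =>
    rw [cD_monomial, coeff_monomial, coeff_monomial]
    split_ifs
    · rfl
    · rw [map_zero]

end

section
variable {X : Idx} {E : Type} [Field E] {n : ℕ}

theorem CInt_mul_H12 (A : PF X E) (i : X.I) (f g : Poly n E) (hf : CInt A i f)
    (hg : CInt A i g) : CInt A i (f * g) := by
  classical
  intro a
  rw [coeff_mul]
  exact Subring.sum_mem _ fun x _ => Subring.mul_mem _ (hf _) (hg _)

theorem CInt_nab0_H12 (A : PF X E) (hA : A.Ax) (i : X.I) (P g : Poly n E) (hP : CInt A i P)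
    (hg : CInt A i g) (j : A.J) : CInt A i (nab0 (A.D j) P g) := by
  intro a
  rw [nab0_apply, coeff_sub]
  refine Subring.sub_mem _ ?_ (CInt_mul_H12 A i _ _ (fun b => ?_) hg a)
  · rw [coeff_cD_H12]
    exact hA.D_O i j _ (hg a)
  · rw [coeff_cD_H12]
    exact hA.D_O i j _ (hP b)

end

theorem EW_proof (hBAS : BASStmt) (hPSI : PSIStmt) (hMAL : MALStmt) (hCI : CIStmt) :
    EWStmt := by
  classical
  intro X E _ _ A hA n D hD P hP hR he w hw hwn hrel
  obtain ⟨N, co, hco, -, hlow⟩ := hBAS E n D hD P hP hR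
  -- the coordinates of `e`
  have hx : co (eP D n P) = co w := by
    have := co_rel_H12 P co hco.rel _ hrel
    rw [map_sub] at this
    exact sub_eq_zero.1 this
  set x : N → E := co (eP D n P) with hxdef
  -- `x` is supported on the levels `≤ n`
  have hsupp : ∀ b : N, x b ≠ 0 → b.1.degree + (n + 1) ≤ D * n := by
    intro b hb
    by_contra hc
    apply hb
    rw [hx, w.as_sum, map_sum, Finset.sum_apply]
    refine Finset.sum_eq_zero fun a ha => ?_
    have ha' : coeff a w ≠ 0 := MvPolynomial.mem_support_iff.1 ha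
    have h1 : (monomial a (coeff a w) : Poly n E) = coeff a w • monomial a 1 := by
      rw [smul_monomial, smul_eq_mul, mul_one]
    rw [h1, map_smul, Pi.smul_apply, smul_eq_mul]
    have h2 : co (monomial a 1) b = 0 := by
      by_contra h3
      exact hc (hlow a (hwn a ha') b h3)
    rw [h2, mul_zero]
  -- `x` is not zero
  have hne : ∃ b : N, x b ≠ 0 := by
    by_contra hc
    push Not at hc
    apply he
    have h1 := hco.span w hw
    have h2 : ∑ j, co w j • (monomial j.1 1 : Poly n E) = 0 := by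
      refine Finset.sum_eq_zero fun j _ => ?_
      rw [← hx, hc j, zero_smul]
    rw [h2, sub_zero] at h1
    have h3 := Submodule.add_mem _ hrel h1
    rwa [sub_add_cancel] at h3
  obtain ⟨b0, hb0⟩ := hne
  -- the places
  have e1 := hPSI X E A hA n D hD P hP hR N _ _ co hco (1 + 2 * n) (by omega)
  have e2 := hCI X E A hA n D hD P hP hR N _ _ co hco
  have e3 : X.Ev fun i => ∀ b : N, x b ≠ 0 → A.Un i (x b) := Idx.Ev.all fun b => by
    by_cases h : x b = 0
    · exact Idx.Ev.of_forall fun i h' => absurd h h'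
    · exact (hA.pf2 _ h).mono fun i hi _ => hi
  obtain ⟨i, -, ⟨h1, h2⟩, h3⟩ := ((e1.and e2).and e3).exists 0
  obtain ⟨hB, hAm, -, hBA, hhor, hgap, hBe⟩ := h1 _ _ rfl rfl
  obtain ⟨hPi, hbi, hcoi, -, -⟩ := h2
  have hxi : ∀ a, x a ∈ A.O i := by
    intro a
    by_cases h : x a = 0
    · rw [h]; exact Subring.zero_mem _
    · exact (h3 a h).2.1
  have hG : ∀ (j : A.J) a c, matG (A.D j) P (fun a : N => (monomial a.1 1 : Poly n E)) co a c ∈
      A.O i := by
    intro j a c
    rw [matG, Matrix.of_apply]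
    exact (hcoi _ (CInt_nab0_H12 A hA i P _ hPi (hbi c) j)).1 a
  obtain ⟨-, -, hfin⟩ := hMAL X E A hA i n 1 le_rfl N _ _ _ x hB hAm hG hxi hBA hhor hBe
  -- the end
  obtain ⟨y, hy, hxy⟩ := hfin b0
  have hdv : ∃ z ∈ A.O i, ∑ j, matA (X.p i) (1 + 2 * n) (A.phi i) P
      (fun a : N => (monomial a.1 1 : Poly n E)) (fun a : N => (a.1.degree + (n + 1)) / D) co b0 j *
        A.phi i (x j) = (X.p i : E) * z := by
    have h4 : ∀ j : N, ∃ z ∈ A.O i, matA (X.p i) (1 + 2 * n) (A.phi i) P
      (fun a : N => (monomial a.1 1 : Poly n E)) (fun a : N => (a.1.degree + (n + 1)) / D) co b0 j *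
        A.phi i (x j) = (X.p i : E) * z := by
      intro j
      by_cases h : x j = 0
      · exact ⟨0, Subring.zero_mem _, by rw [h, map_zero, mul_zero, mul_zero]⟩
      · have hl : (j.1.degree + (n + 1)) / D ≤ n := by
          refine Nat.div_le_of_le_mul ?_
          exact hsupp j h
        obtain ⟨z, hz, hz'⟩ := hgap j hl b0
        refine ⟨z * A.phi i (x j), Subring.mul_mem _ hz (hA.phi_O i _ (hxi j)), ?_⟩
        rw [hz', pow_one, mul_assoc]
    choose z hz hz' using h4
    refine ⟨∑ j, z j, Subring.sum_mem _ fun j _ => hz j, ?_⟩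
    rw [Finset.mul_sum]
    exact Finset.sum_congr rfl fun j _ => hz' j
  obtain ⟨z, hz, hzz⟩ := hdv
  rw [hzz, pow_one] at hxy
  have h5 : x b0 = (X.p i : E) * (z - y) := by
    rw [mul_sub, ← hxy]; ring
  obtain ⟨-, -, hinv⟩ := h3 b0 hb0
  have hp0 : (X.p i : E) ≠ 0 := Nat.cast_ne_zero.2 (X.hp i).ne_zero
  have hzy : z - y ≠ 0 := by
    intro h
    rw [h, mul_zero] at h5
    exact hb0 h5
  apply hA.p_inv i
  have h6 : ((X.p i : ℕ) : E)⁻¹ = (z - y) * (x b0)⁻¹ := by
    rw [h5, mul_inv]
    field_simp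
  rw [h6]
  exact Subring.mul_mem _ (Subring.sub_mem _ hz hy) hinv

end Pool.CUBE
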