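import Pool.Agent.H38.CUBE.JJStmts

/-!
# MP_47888e_al, block CONT/JJ: module JJE

The value of the corner functional on the special element: induction over the faces.
-/

set_option autoImplicit false

open Polynomial

namespace Pool.CUBE

open Pool.CM Pool.H93.Cube Pool.CUBE.Corner

theorem jje_thm (h1 : Corner.FACEStmt) (h2 : Corner.FACEPStmt) (h3 : Corner.JJIOTAStmt)
    (h4 : Corner.JJE0Stmt) : Corner.JJEStmt := by
  intro n
  induction n with
  | zero =>
    intro E _ _ K j
    exact h4 E K j
  | succ n ih =>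
    intro E _ _ K j
    obtain ⟨K0, hK0⟩ := h1 n E K
    have e1 : eP K.D (n + 1) K.P =
        MvPolynomial.pderiv 0 K.P * MvPolynomial.rename Fin.succ (eP K.D n (faceP K.P)) := rfl
    rw [e1, h3 n E K K0 hK0 j, ← h2 n E K K0 hK0, ← hK0.1]
    exact ih E K0 j

end Pool.CUBE
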