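import Pool.Agent.H38.CUBE.JJStmts

/-!
# MP_47888e_al, block CONT/JJ: module JJE0

The value of the corner functional on the special element in dimension `0`.
-/

set_option autoImplicit false

open Polynomial

namespace Pool.CUBE.J_JJE0

open Pool.CM Pool.H93.Cube Pool.CUBE Pool.CUBE.Corner

section Alg

variable {E : Type} [Field E]

/-- polynomials in no variable are constants -/
noncomputable abbrev c0 (E : Type) [Field E] : MvPolynomial (Fin 0) E →+* E :=
  MvPolynomial.constantCoeff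

theorem eq_C (h : MvPolynomial (Fin 0) E) : h = MvPolynomial.C (c0 E h) := by
  ext a
  have ha : a = 0 := Subsingleton.elim _ _
  subst ha
  simp [MvPolynomial.constantCoeff_eq]

/-- evaluation at `z_0 = 1` -/
noncomputable abbrev ep (E : Type) [Field E] : MvPolynomial (Fin 1) E →ₐ[E] E :=
  MvPolynomial.aeval fun _ => (1 : E)

theorem Io_eq [CharZero E] (g : MvPolynomial (Fin 1) E) : Io g = ep E g := by
  induction g using MvPolynomial.induction_on' with
  | add p q hp hq => rw [map_add, map_add, hp, hq]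
  | monomial a r =>
    rw [Io, linMon_monomial, MvPolynomial.aeval_monomial]
    have h1 : a.degree = a 0 := by
      rw [Finsupp.degree_eq_sum]; simp
    rw [h1]
    have h2 : ((a 0).factorial : E) ≠ 0 := Nat.cast_ne_zero.2 (Nat.factorial_ne_zero _)
    simp [h2]

theorem Mell_eq (μ : Fin 0 →₀ ℕ) (h : MvPolynomial (Fin 0) E) :
    Mell μ h = RatFunc.C (c0 E h) := by
  rw [eq_C h]
  have h1 : (MvPolynomial.C (c0 E h) : MvPolynomial (Fin 0) E) =
      MvPolynomial.monomial 0 (c0 E h) := rfl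
  rw [h1, Mell, linMon_monomial]
  simp [RatFunc.smul_eq_C_mul]

theorem SigP_eq (R : Type) [CommRing R] : SigP 0 R = MvPolynomial.X 0 := by
  rw [SigP]; simp

theorem zc_X : zc (n := 0) (E := E) (MvPolynomial.X 0) = 1 := by
  rw [zc, MvPolynomial.aeval_X]
  simp [cpt]

theorem homD_eq {R : Type} [CommRing R] (D : ℕ) (x : R) :
    homD (n := 0) D (MvPolynomial.C x) = MvPolynomial.C x * MvPolynomial.X 0 ^ D := by
  have h1 : (MvPolynomial.C x : MvPolynomial (Fin 0) R) = MvPolynomial.monomial 0 x := rfl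
  rw [h1, homD, linMon_monomial, SigP_eq]
  simp [MvPolynomial.smul_eq_C_mul]

theorem affR_alg (v : E) (g : E[X]) :
    affR 1 v one_ne_zero (algebraMap E[X] (RatFunc E) g) =
      algebraMap E[X] (RatFunc E) (affP 1 v g) := by
  unfold affR
  rw [RatFunc.coe_mapRingHom_eq_coe_map]
  have h := RatFunc.map_apply_div (affP 1 v) (affP_le 1 v one_ne_zero) g 1
  simpa using h

theorem affP_eval (v x : E) (g : E[X]) : (affP 1 v g).eval x = g.eval (x + v) := by
  have : affP 1 v g = g.comp (Polynomial.C 1 * Polynomial.X + Polynomial.C v) := rfl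
  rw [this, Polynomial.eval_comp]
  simp

end Alg

section K

variable {E : Type} [Field E] (K : Corner 0 E)

/-- the polynomial `w` over `E` -/
noncomputable def om : E[X] := K.w.map (c0 E)

theorem om_coeff_zero : (om K).coeff 0 = 0 := by
  rw [om, Polynomial.coeff_map, K.hw, map_zero]

theorem om_pow_coeff (j t : ℕ) (h : t < j) : ((om K) ^ j).coeff t = 0 := by
  have h1 : (Polynomial.X : E[X]) ∣ om K := Polynomial.X_dvd_iff.2 (om_coeff_zero K)
  exact Polynomial.X_pow_dvd_iff.1 (pow_dvd_pow_of_dvd h1 j) t h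

theorem mu_eq : MvPolynomial.monomial K.μ (1 : E) = 1 := by
  have : K.μ = 0 := Subsingleton.elim _ _
  rw [this]; rfl

theorem G_eq (k : ℕ) : K.G k = MvPolynomial.C ((1 + om K).coeff k) * MvPolynomial.X 0 ^ K.D := by
  rw [Corner.G, mu_eq, one_mul, Corner.W, eq_C ((1 + K.w).coeff k), homD_eq]
  congr 2
  rw [om, Polynomial.coeff_add, Polynomial.coeff_add, map_add, Polynomial.coeff_map,
    Polynomial.coeff_one, Polynomial.coeff_one]
  split_ifs <;> simp

theorem natDegree_le (k : ℕ) (h : (1 + K.w).natDegree < k) : (1 + om K).coeff k = 0 := by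
  have h1 : 1 + om K = (1 + K.w).map (c0 E) := by
    rw [om, Polynomial.map_add, Polynomial.map_one]
  rw [h1, Polynomial.coeff_map, Polynomial.coeff_eq_zero_of_natDegree_lt h, map_zero]

theorem GP_map : K.GP.map (ep E).toRingHom = 1 + om K := by
  ext k
  rw [Corner.GP, Polynomial.coeff_map, Polynomial.finsetSum_coeff]
  simp only [Polynomial.coeff_monomial]
  rw [Finset.sum_ite_eq' ]
  split_ifs with h
  · rw [G_eq]
    simp
  · rw [map_zero, natDegree_le K k]
    rw [Finset.mem_range] at h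
    omega

theorem fer_eq (D : ℕ) : fer 0 D E = MvPolynomial.X 0 ^ D := by
  rw [fer]; simp

/-- `binom(N, l) [τ^t] (1+w)^(N-l)` -/
theorem sum_om (m t : ℕ) : ∑ j ∈ Finset.range (t + 1), ((m.choose j : ℕ) : E) *
    ((om K) ^ j).coeff t = ((1 + om K) ^ m).coeff t := by
  rw [add_comm 1 (om K), add_pow, Polynomial.finsetSum_coeff]
  have h1 : ∀ j, (om K ^ j * 1 ^ (m - j) * ((m.choose j : ℕ) : E[X])).coeff t =
      ((m.choose j : ℕ) : E) * ((om K) ^ j).coeff t := by
    intro j
    rw [one_pow, mul_one, Polynomial.coeff_mul_natCast, mul_comm]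
  simp only [h1]
  have h2 : ∑ j ∈ Finset.range (t + 1), ((m.choose j : ℕ) : E) * ((om K) ^ j).coeff t =
      ∑ j ∈ Finset.range (t + 1 + (m + 1)), ((m.choose j : ℕ) : E) * ((om K) ^ j).coeff t := by
    refine Finset.sum_subset (fun j hj => ?_) fun j _ hj => ?_
    · rw [Finset.mem_range] at hj ⊢; omega
    · rw [Finset.mem_range] at hj
      rw [om_pow_coeff K j t (by omega), mul_zero]
  have h3 : ∑ j ∈ Finset.range (m + 1), ((m.choose j : ℕ) : E) * ((om K) ^ j).coeff t =
      ∑ j ∈ Finset.range (t + 1 + (m + 1)), ((m.choose j : ℕ) : E) * ((om K) ^ j).coeff t := by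
    refine Finset.sum_subset (fun j hj => ?_) fun j _ hj => ?_
    · rw [Finset.mem_range] at hj ⊢; omega
    · rw [Finset.mem_range] at hj
      rw [Nat.choose_eq_zero_of_lt (by omega), Nat.cast_zero, zero_mul]
  rw [h2, h3]

variable [CharZero E]

/-- the numerator `c z^(D-1)` -/
noncomputable def gg (D : ℕ) (c : E) : MvPolynomial (Fin 1) E :=
  MvPolynomial.C c * MvPolynomial.X 0 ^ (D - 1)

omit [CharZero E] in
theorem gg_hom (c : E) : (gg K.D c).IsHomogeneous (K.D * 1 - (0 + 1)) := by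
  have h := (MvPolynomial.isHomogeneous_X_pow (R := E) (0 : Fin 1) (K.D - 1))
  have h2 := (MvPolynomial.isHomogeneous_C (Fin 1) c).mul h
  rw [zero_add] at h2
  rw [mul_one]
  exact h2

theorem Ainf_eq (c : E) (l t : ℕ) (N : ℤ) : K.Ainf 1 (gg K.D c) l t N =
    if (l : ℤ) ≤ N then (-1) ^ l * ((N.toNat.choose l : ℕ) : E) * c *
      ((1 + om K) ^ (N.toNat - l)).coeff t else 0 := by
  rw [Corner.Ainf]
  have e0 : ((1 : ℕ) : ℤ) + l ≤ N + 1 ↔ (l : ℤ) ≤ N := by push_cast; omega
  by_cases h : (l : ℤ) ≤ N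
  · rw [if_pos (e0.2 h), if_pos h]
    have e1 : (N + 1 - ((1 : ℕ) : ℤ) - l).toNat = N.toNat - l := by push_cast; omega
    rw [e1, Io_eq, map_mul, map_mul, fer_eq]
    have e2 : ep E ((K.GP ^ (N.toNat - l)).coeff t) = ((1 + om K) ^ (N.toNat - l)).coeff t := by
      rw [← GP_map, ← Polynomial.map_pow, Polynomial.coeff_map]
      rfl
    have e3 : ep E (gg K.D c) = c := by simp [gg]
    have e4 : ep E ((MvPolynomial.X 0 ^ K.D) ^ l) = 1 := by simp
    rw [e2, e3, e4, mul_one]
    have hl : l ≤ N.toNat := by omega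
    rw [Nat.cast_choose E hl]
    ring
  · rw [if_neg (fun h' => h (e0.1 h')), if_neg h]

/-- the polynomial `(-1)^l binom(X, l) sum_j binom(X - l, j) (w^j)_t` -/
noncomputable def qq (l t : ℕ) : E[X] :=
  (-1) ^ l * (Polynomial.C ((l.factorial : E)⁻¹) * descPochhammer E l) *
    ∑ j ∈ Finset.range (t + 1), affP 1 (-(l : E)) (Polynomial.C ((j.factorial : E)⁻¹) *
      descPochhammer E j) * Polynomial.C (((om K) ^ j).coeff t)

theorem rr_eq (c : E) (l t : ℕ) : K.rr 1 (gg K.D c) l t =
    algebraMap E[X] (RatFunc E) (Polynomial.C c * qq K l t) := by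
  have e1 : 1 + l - 1 = l := by omega
  have e2 : (1 : E) - ((1 : ℕ) : E) - (l : E) = -(l : E) := by push_cast; ring
  have e3 : ∀ j, Mell K.μ (zc (gg K.D c * fer 0 K.D E ^ l) * (K.w ^ j).coeff t) =
      algebraMap E[X] (RatFunc E) (Polynomial.C (c * ((om K) ^ j).coeff t)) := by
    intro j
    have h1 : zc (gg K.D c * fer 0 K.D E ^ l) = MvPolynomial.C c := by
      rw [fer_eq, gg]
      simp only [map_mul, map_pow, zc_X, one_pow, mul_one]
      exact MvPolynomial.algHom_C _ _
    rw [h1, Mell_eq, map_mul]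
    have h2 : c0 E (MvPolynomial.C c) = c := MvPolynomial.constantCoeff_C _ _
    have h3 : c0 E ((K.w ^ j).coeff t) = ((om K) ^ j).coeff t := by
      rw [om, ← Polynomial.map_pow, Polynomial.coeff_map]
    rw [h2, h3, RatFunc.algebraMap_C]
  rw [Corner.rr, e1, e2]
  simp only [e3]
  have e4 : ((l.factorial : RatFunc E) / (l.factorial : RatFunc E)) = 1 := by
    apply div_self
    have h5 : (l.factorial : RatFunc E) = algebraMap E[X] (RatFunc E) ((l.factorial : ℕ) : E[X]) := by
      rw [map_natCast]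
    rw [h5]
    intro h6
    have h7 := (IsFractionRing.injective E[X] (RatFunc E)) (h6.trans (map_zero _).symm)
    exact Nat.factorial_ne_zero l (Nat.cast_eq_zero.1 h7)
  rw [e4, mul_one]
  have e5 : ∀ j, binR E j * algebraMap E[X] (RatFunc E) (Polynomial.C (c * ((om K) ^ j).coeff t)) =
      algebraMap E[X] (RatFunc E) (Polynomial.C ((j.factorial : E)⁻¹) *
      descPochhammer E j * Polynomial.C (c * ((om K) ^ j).coeff t)) := by
    intro j
    rw [binR, ← map_mul]
  simp only [e5]
  rw [← map_sum, affR_alg, binR, map_sum]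
  have e6 : (-1 : RatFunc E) ^ l = algebraMap E[X] (RatFunc E) ((-1) ^ l) := by
    rw [map_pow, map_neg, map_one]
  rw [e6, ← map_mul, ← map_mul, qq]
  congr 1
  rw [mul_comm (Polynomial.C c), mul_assoc _ _ (Polynomial.C c), Finset.sum_mul]
  congr 1
  refine Finset.sum_congr rfl fun j _ => ?_
  rw [map_mul (affP 1 (-(l : E)))]
  have e7 : affP 1 (-(l : E)) (Polynomial.C (c * ((om K) ^ j).coeff t)) =
      Polynomial.C (c * ((om K) ^ j).coeff t) := by simp [affP]
  rw [e7, Polynomial.C_mul]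
  ring

theorem bin_eval (m k : ℕ) : (Polynomial.C ((k.factorial : E)⁻¹) * descPochhammer E k).eval
    (m : E) = ((m.choose k : ℕ) : E) := by
  rw [Polynomial.eval_mul, Polynomial.eval_C, descPochhammer_eval_eq_descFactorial,
    Nat.descFactorial_eq_factorial_mul_choose, Nat.cast_mul, ← mul_assoc, inv_mul_cancel₀, one_mul]
  exact Nat.cast_ne_zero.2 (Nat.factorial_ne_zero k)

theorem qq_eval (l t m : ℕ) : (qq K l t).eval (m : E) =
    if l ≤ m then (-1) ^ l * ((m.choose l : ℕ) : E) * ((1 + om K) ^ (m - l)).coeff t else 0 := by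
  rw [qq, Polynomial.eval_mul, Polynomial.eval_mul, bin_eval]
  split_ifs with h
  · have h1 : (m : E) + -(l : E) = ((m - l : ℕ) : E) := by
      rw [Nat.cast_sub h]; ring
    rw [Polynomial.eval_finsetSum]
    have h2 : ∀ j, (affP 1 (-(l : E)) (Polynomial.C ((j.factorial : E)⁻¹) *
      descPochhammer E j) * Polynomial.C (((om K) ^ j).coeff t)).eval (m : E) =
        (((m - l).choose j : ℕ) : E) * ((om K) ^ j).coeff t := by
      intro j
      rw [Polynomial.eval_mul, affP_eval, h1, bin_eval, Polynomial.eval_C]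
    simp only [h2]
    rw [sum_om]
    simp
  · rw [Nat.choose_eq_zero_of_lt (by omega)]
    simp

/-- the recursion, at all natural numbers `m ≥ l` -/
theorem rec_nat (l t m : ℕ) (h : l ≤ m) : (qq K l t).eval ((m + 1 : ℕ) : E) =
    ∑ k ∈ Finset.range (t + 1), (1 + om K).coeff k * (qq K l (t - k)).eval (m : E) -
      (if l = 0 then 0 else (qq K (l - 1) t).eval (m : E)) := by
  simp only [qq_eval]
  rw [if_pos (by omega)]
  simp only [if_pos h]
  have h1 : ∑ k ∈ Finset.range (t + 1), (1 + om K).coeff k *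
      ((-1) ^ l * ((m.choose l : ℕ) : E) * ((1 + om K) ^ (m - l)).coeff (t - k)) =
      (-1) ^ l * ((m.choose l : ℕ) : E) * ((1 + om K) ^ (m - l + 1)).coeff t := by
    rw [pow_succ', Polynomial.coeff_mul,
      Finset.Nat.sum_antidiagonal_eq_sum_range_succ_mk, Finset.mul_sum]
    refine Finset.sum_congr rfl fun k _ => ?_
    ring
  rw [h1]
  rcases Nat.eq_zero_or_pos l with h0 | h0
  · subst h0
    simp
  · rw [if_neg (by omega), if_pos (by omega)]
    obtain ⟨l, rfl⟩ : ∃ l', l = l' + 1 := ⟨l - 1, by omega⟩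
    have e1 : m + 1 - (l + 1) = m - l := by omega
    have e2 : m - (l + 1) + 1 = m - l := by omega
    have e3 : l + 1 - 1 = l := by omega
    rw [e1, e2, e3, Nat.choose_succ_succ]
    push_cast
    ring

/-- the recursion for the polynomials, evaluated anywhere -/
theorem rec_all (l t : ℕ) (x : E) : (qq K l t).eval (x + 1) =
    ∑ k ∈ Finset.range (t + 1), (1 + om K).coeff k * (qq K l (t - k)).eval x -
      (if l = 0 then 0 else (qq K (l - 1) t).eval x) := by
  have key : affP 1 1 (qq K l t) = ∑ k ∈ Finset.range (t + 1), Polynomial.C ((1 + om K).coeff k) *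
      (qq K l (t - k)) - (if l = 0 then 0 else (qq K (l - 1) t)) := by
    refine Polynomial.eq_of_infinite_eval_eq _ _ ?_
    have hinf : Set.Infinite (Set.range fun m : ℕ => ((l + m : ℕ) : E)) := by
      refine Set.infinite_range_of_injective fun a b hab => ?_
      have := Nat.cast_injective hab
      omega
    refine hinf.mono ?_
    rintro _ ⟨m, rfl⟩
    simp only [Set.mem_ofPred_eq]
    rw [affP_eval]
    have h1 := rec_nat K l t (l + m) (by omega)
    have h2 : ((l + m + 1 : ℕ) : E) = ((l + m : ℕ) : E) + 1 := by push_cast; ring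
    rw [h2] at h1
    rw [h1, Polynomial.eval_sub, Polynomial.eval_finsetSum]
    congr 1
    · refine Finset.sum_congr rfl fun k _ => ?_
      rw [Polynomial.eval_mul, Polynomial.eval_C]
    · split_ifs
      · simp
      · rfl
  have h1 := congrArg (Polynomial.eval x) key
  rw [affP_eval, Polynomial.eval_sub, Polynomial.eval_finsetSum] at h1
  rw [h1]
  congr 1
  · refine Finset.sum_congr rfl fun k _ => ?_
    rw [Polynomial.eval_mul, Polynomial.eval_C]
  · split_ifs
    · simp
    · rfl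

/-! ### the functional -/

/-- the difference of the functional at infinity and its continuation -/
noncomputable def FF (c : E) (j : ℕ) (l t : ℤ) (N : ℤ) : E :=
  if 0 ≤ l ∧ 0 ≤ t then
    (if j = 0 then K.Ainf 1 (gg K.D c) l.toNat t.toNat N else 0) -
      Rc j N (K.rr 1 (gg K.D c) l.toNat t.toNat)
  else 0

/-- the value: `-c q(N)` for `N < 0` -/
theorem FF_eq (h1 : RCStmt) (c : E) (j : ℕ) (l t : ℕ) (N : ℤ) : FF K c j l t N =
    if j = 0 then (if 0 ≤ N then 0 else -(c * (qq K l t).eval (N : E))) else 0 := by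
  obtain ⟨-, rc, -, -, r0, rj⟩ := h1 E
  rw [FF, if_pos ⟨Int.natCast_nonneg _, Int.natCast_nonneg _⟩, Int.toNat_natCast,
    Int.toNat_natCast, rr_eq, map_mul, RatFunc.algebraMap_C, rc]
  by_cases hj : j = 0
  · subst hj
    rw [if_pos rfl, if_pos rfl, r0, Ainf_eq]
    by_cases hN : 0 ≤ N
    · rw [if_pos hN]
      obtain ⟨m, rfl⟩ : ∃ m : ℕ, N = m := ⟨N.toNat, by omega⟩
      have h2 : ((m : ℤ) : E) = (m : E) := Int.cast_natCast m
      rw [h2, qq_eval, Int.toNat_natCast]
      by_cases hl : l ≤ m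
      · rw [if_pos (by exact_mod_cast hl), if_pos hl]
        ring
      · rw [if_neg (by exact_mod_cast hl), if_neg hl, mul_zero, sub_zero]
    · rw [if_neg hN, if_neg (by omega), zero_sub]
  · rw [if_neg hj, if_neg hj, rj N _ j (by omega), mul_zero, sub_zero]

omit [CharZero E] in
theorem FF_neg (c : E) (j : ℕ) (l t : ℤ) (N : ℤ) (h : ¬ (0 ≤ l ∧ 0 ≤ t)) : FF K c j l t N = 0 := by
  rw [FF, if_neg h]

/-- the key identity -/
theorem FF_key (h1 : RCStmt) (j : ℕ) (l s t : ℤ) :
    FF K 1 j (l - 1) t (-s - 1) + FF K 1 j l t (-s - 1 + 1) -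
      ∑ k ∈ Finset.range ((1 + K.w).natDegree + 1), FF K ((1 + om K).coeff k) j l (t - k) (-s - 1) =
    if j = 0 ∧ l = 0 ∧ s = 0 ∧ t = 0 then 1 else 0 := by
  by_cases hlt : 0 ≤ l ∧ 0 ≤ t
  swap
  · rw [FF_neg K _ _ _ _ _ (by omega), FF_neg K _ _ _ _ _ hlt, Finset.sum_eq_zero, if_neg (by omega)]
    · ring
    · intro k _
      exact FF_neg K _ _ _ _ _ (by omega)
  obtain ⟨hl, ht⟩ := hlt
  obtain ⟨l, rfl⟩ : ∃ l' : ℕ, l = l' := ⟨l.toNat, by omega⟩
  obtain ⟨t, rfl⟩ : ∃ t' : ℕ, t = t' := ⟨t.toNat, by omega⟩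
  -- the sum
  have hsum : ∑ k ∈ Finset.range ((1 + K.w).natDegree + 1),
      FF K ((1 + om K).coeff k) j l ((t : ℤ) - k) (-s - 1) =
      ∑ k ∈ Finset.range (t + 1), FF K ((1 + om K).coeff k) j l ((t - k : ℕ) : ℤ) (-s - 1) := by
    have a1 : ∑ k ∈ Finset.range ((1 + K.w).natDegree + 1),
        FF K ((1 + om K).coeff k) j l ((t : ℤ) - k) (-s - 1) =
        ∑ k ∈ Finset.range ((1 + K.w).natDegree + 1 + (t + 1)),
          FF K ((1 + om K).coeff k) j l ((t : ℤ) - k) (-s - 1) := by
      refine Finset.sum_subset (fun k hk => ?_) fun k _ hk => ?_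
      · rw [Finset.mem_range] at hk ⊢; omega
      · rw [Finset.mem_range] at hk
        rw [natDegree_le K k (by omega)]
        by_cases hkt : k ≤ t
        · have e1 : (t : ℤ) - k = ((t - k : ℕ) : ℤ) := by omega
          rw [e1, FF_eq K h1]
          split_ifs <;> simp
        · exact FF_neg K _ _ _ _ _ (by omega)
    have a2 : ∑ k ∈ Finset.range (t + 1), FF K ((1 + om K).coeff k) j l ((t : ℤ) - k) (-s - 1) =
        ∑ k ∈ Finset.range ((1 + K.w).natDegree + 1 + (t + 1)),
          FF K ((1 + om K).coeff k) j l ((t : ℤ) - k) (-s - 1) := by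
      refine Finset.sum_subset (fun k hk => ?_) fun k _ hk => ?_
      · rw [Finset.mem_range] at hk ⊢; omega
      · rw [Finset.mem_range] at hk
        exact FF_neg K _ _ _ _ _ (by omega)
    rw [a1, ← a2]
    refine Finset.sum_congr rfl fun k hk => ?_
    rw [Finset.mem_range] at hk
    have e1 : (t : ℤ) - k = ((t - k : ℕ) : ℤ) := by omega
    rw [e1]
  rw [hsum]
  have hl1 : FF K 1 j ((l : ℤ) - 1) t (-s - 1) =
      if l = 0 then 0 else FF K 1 j ((l - 1 : ℕ) : ℤ) t (-s - 1) := by
    split_ifs with h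
    · exact FF_neg K _ _ _ _ _ (by omega)
    · have e1 : (l : ℤ) - 1 = ((l - 1 : ℕ) : ℤ) := by omega
      rw [e1]
  rw [hl1]
  simp only [FF_eq K h1]
  by_cases hj : j = 0
  swap
  · simp [hj]
  subst hj
  simp only [if_true]
  by_cases hN : 0 ≤ -s - 1
  · rw [if_neg (by omega : ¬ (True ∧ (l : ℤ) = 0 ∧ s = 0 ∧ (t : ℤ) = 0))]
    simp only [if_pos hN, if_pos (show (0 : ℤ) ≤ -s - 1 + 1 by omega)]
    simp
  · simp only [if_neg hN]
    have hr := rec_all K l t (((-s - 1 : ℤ)) : E)
    have e2 : (((-s - 1 : ℤ)) : E) + 1 = ((-s - 1 + 1 : ℤ) : E) := by push_cast; ring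
    rw [e2] at hr
    by_cases hs : s = 0
    · subst hs
      rw [if_pos (by norm_num : (0 : ℤ) ≤ -0 - 1 + 1)]
      have e3 : ((-0 - 1 + 1 : ℤ) : E) = ((0 : ℕ) : E) := by norm_num
      rw [e3, qq_eval] at hr
      have e4 : (if l ≤ 0 then (-1) ^ l * ((Nat.choose 0 l : ℕ) : E) *
          ((1 + om K) ^ (0 - l)).coeff t else 0) =
          if True ∧ (l : ℤ) = 0 ∧ (0 : ℤ) = 0 ∧ (t : ℤ) = 0 then 1 else 0 := by
        by_cases hl0 : l = 0
        · subst hl0
          simp [Polynomial.coeff_one]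
        · rw [if_neg (by omega), if_neg (by omega)]
      rw [e4] at hr
      rw [hr]
      simp only [one_mul, Finset.sum_neg_distrib]
      split_ifs <;> ring
    · rw [if_neg (by omega : ¬ (0 : ℤ) ≤ -s - 1 + 1),
        if_neg (fun h => hs h.2.2.1 : ¬ (True ∧ (l : ℤ) = 0 ∧ s = 0 ∧ (t : ℤ) = 0)), one_mul, hr]
      simp only [one_mul, Finset.sum_neg_distrib]
      split_ifs <;> ring

/-! ### the special element -/

omit [CharZero E] in
theorem coeff_P : MvPolynomial.coeff (Finsupp.single 0 K.D) K.P =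
    lamF E + sigF E - ∑ k ∈ Finset.range ((1 + K.w).natDegree + 1),
      tauF E ^ k * cF E ((1 + om K).coeff k) := by
  have e1 : ∀ R : Type, [CommRing R] → MvPolynomial.coeff (Finsupp.single 0 K.D)
      (MvPolynomial.X 0 ^ K.D : MvPolynomial (Fin 1) R) = 1 := by
    intro R _
    rw [MvPolynomial.coeff_X_pow, if_pos rfl]
  have e2 : MvPolynomial.coeff (Finsupp.single 0 K.D) K.P0 = RatFunc.X -
      ∑ k ∈ Finset.range ((1 + K.w).natDegree + 1),
        RatFunc.C (RatFunc.X : RatFunc E) ^ k * cF2 E ((1 + om K).coeff k) := by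
    rw [Corner.P0, MvPolynomial.coeff_sub, MvPolynomial.coeff_C_mul, SigP_eq, e1, mul_one,
      MvPolynomial.coeff_sum]
    congr 1
    refine Finset.sum_congr rfl fun k _ => ?_
    rw [MvPolynomial.coeff_C_mul, MvPolynomial.coeff_map, G_eq, MvPolynomial.coeff_C_mul, e1,
      mul_one]
  rw [Corner.P, ferm, MvPolynomial.coeff_add, MvPolynomial.coeff_map, e2,
    MvPolynomial.coeff_C_mul]
  have e3 : MvPolynomial.coeff (Finsupp.single 0 K.D)
      (∑ i : Fin 1, (MvPolynomial.X i ^ K.D : MvPolynomial (Fin 1) (F3 E))) = 1 := by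
    rw [Fin.sum_univ_one, e1]
  rw [e3, mul_one, map_sub, map_sum]
  have e4 : ∀ k, algebraMap (RatFunc (RatFunc E)) (F3 E)
      (RatFunc.C (RatFunc.X : RatFunc E) ^ k * cF2 E ((1 + om K).coeff k)) =
      tauF E ^ k * cF E ((1 + om K).coeff k) := by
    intro k
    rw [map_mul, map_pow]
    rfl
  simp only [e4]
  have e5 : algebraMap (RatFunc (RatFunc E)) (F3 E) RatFunc.X = sigF E := rfl
  have e6 : (RatFunc.X : F3 E) = lamF E := rfl
  rw [e5, e6]
  ring

omit [CharZero E] in
theorem map_gg (x : F3 E) (c : E) : MvPolynomial.C x * MvPolynomial.map (cF E) (gg K.D c) =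
    MvPolynomial.monomial (Finsupp.single 0 (K.D - 1)) (x * cF E c) := by
  rw [gg, map_mul, map_pow, MvPolynomial.map_C, MvPolynomial.map_X, ← mul_assoc,
    ← MvPolynomial.C_mul, ← MvPolynomial.C_mul_X_pow_eq_monomial]

omit [CharZero E] in
theorem eP_eq : eP K.D 0 K.P =
    MvPolynomial.C (lamF E ^ 1 * sigF E ^ 0 * tauF E ^ 0) *
      MvPolynomial.map (cF E) (gg K.D 1) +
    MvPolynomial.C (lamF E ^ 0 * sigF E ^ 1 * tauF E ^ 0) *
      MvPolynomial.map (cF E) (gg K.D 1) -
    ∑ k ∈ Finset.range ((1 + K.w).natDegree + 1),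
      MvPolynomial.C (lamF E ^ 0 * sigF E ^ 0 * tauF E ^ k) *
        MvPolynomial.map (cF E) (gg K.D ((1 + om K).coeff k)) := by
  have e1 : eP K.D 0 K.P = MvPolynomial.monomial (Finsupp.single 0 (K.D - 1))
    (MvPolynomial.coeff (Finsupp.single 0 K.D) K.P) := rfl
  simp only [map_gg]
  rw [e1, coeff_P, map_sub, map_add, map_sum]
  simp only [pow_zero, pow_one, one_mul, mul_one, map_one]

end K

end Pool.CUBE.J_JJE0

namespace Pool.CUBE

open Pool.CM Pool.H93.Cube Pool.CUBE.Corner Pool.CUBE.J_JJE0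

/-- coefficients of iterated Laurent series -/
noncomputable def J_JJE0.cf (E : Type) [Field E] (l s t : ℤ) : T3 E →+ E where
  toFun x := ((x.coeff l).coeff s).coeff t
  map_zero' := by simp
  map_add' x y := by simp

theorem jje0_thm (h1 : RCStmt) (h2 : Corner.COEStmt) : Corner.JJE0Stmt := by
  intro E _ _ K j
  have hcoe : ∀ (u v w : ℕ) (c : E) (l s t : ℤ),
      J_JJE0.cf E l s t (K.JJ j (MvPolynomial.C (lamF E ^ u * sigF E ^ v * tauF E ^ w) *
        MvPolynomial.map (cF E) (gg K.D c))) =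
      FF K c j (l - u) (t - w) (-(s - v) - 1) := by
    intro u v w c l s t
    have h := h2 0 E K j 1 (gg K.D c) u v w le_rfl (gg_hom K c) (by have := K.hD; omega) l s t
    change (((K.JJ j (MvPolynomial.C (lamF E ^ u * sigF E ^ v * tauF E ^ w) *
      MvPolynomial.map (cF E) (gg K.D c))).coeff l).coeff s).coeff t = _
    rw [h, FF]
    simp only [sub_nonneg]
  have key : ∀ l s t : ℤ, J_JJE0.cf E l s t (K.JJ j (eP K.D 0 K.P)) =
      J_JJE0.cf E l s t (if j = 0 then 1 else 0) := by
    intro l s t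
    rw [eP_eq, map_sub, map_sub, map_add, map_add, map_sum, map_sum, hcoe, hcoe]
    simp only [hcoe]
    have e1 : ((1 : ℕ) : ℤ) = 1 := rfl
    have e0 : ((0 : ℕ) : ℤ) = 0 := rfl
    rw [e1, e0]
    simp only [sub_zero]
    have e2 : -(s - 1) - 1 = -s - 1 + 1 := by ring
    rw [e2, FF_key K h1]
    by_cases hj : j = 0
    · subst hj
      simp only [true_and, if_true]
      change _ = (((1 : T3 E).coeff l).coeff s).coeff t
      rw [HahnSeries.coeff_one]
      by_cases hl : l = 0
      · rw [if_pos hl, HahnSeries.coeff_one]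
        by_cases hs : s = 0
        · rw [if_pos hs, HahnSeries.coeff_one]
          simp only [hl, hs, true_and]
          split_ifs <;> rfl
        · rw [if_neg hs, if_neg (fun h => hs h.2.1)]
          simp
      · rw [if_neg hl, if_neg (fun h => hl h.1)]
        simp
    · rw [if_neg (fun h => hj h.1), if_neg hj, map_zero]
  ext l s t
  exact key l s t

end Pool.CUBE
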